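import Pool.Agent.H64.STAT.Rows

/-!
# Row FLW3: the flow of a field of degree `-1` is a one parameter group

`lie ξ` lowers the weight by `1`, so it is locally nilpotent; the values of its exponential are ring
homomorphisms, hence the evaluation at the end point of the flow.
-/

set_option autoImplicit false

namespace Pool.STAT

open Finset MvPolynomial
open Pool.BFL (Pl CB)

namespace F3

variable {c : ℕ}

/-! ### The weights -/

theorem lie_wh {d : Fin c → ℕ} {ξ : Fin c → Pl c} (hd : ∀ i, 1 ≤ d i) (hξ : VF d ξ)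
    {P : Pl c} {n : ℕ} (hP : P.IsWeightedHomogeneous d n) :
    (lie ξ P).IsWeightedHomogeneous d (n - 1) ∧ (n = 0 → lie ξ P = 0) := by
  have hw : ∀ e ∈ P.support, Finsupp.weight d e = n := fun e he => hP (mem_support_iff.1 he)
  have hm : ∀ e ∈ P.support, lie ξ (monomial e (coeff e P)) =
      coeff e P • e.sum fun i k => monomial (e - Finsupp.single i 1) (k : ℝ) • ξ i := fun e _ => by
    rw [lie, mkDerivation_monomial]
  have hs : lie ξ P = ∑ e ∈ P.support, lie ξ (monomial e (coeff e P)) := by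
    conv_lhs => rw [P.as_sum]
    rw [map_sum]
  constructor
  · rw [hs]
    refine IsWeightedHomogeneous.sum _ _ _ fun e he => ?_
    rw [hm e he, Finsupp.sum]
    refine (weightedHomogeneousSubmodule ℝ d (n - 1)).smul_mem _ ?_
    refine (weightedHomogeneousSubmodule ℝ d (n - 1)).sum_mem fun i hi => ?_
    have h1 : (monomial (e - Finsupp.single i 1) ((e i : ℕ) : ℝ) : Pl c).IsWeightedHomogeneous d
        (n - d i) := by
      refine isWeightedHomogeneous_monomial _ _ _ ?_
      have h2 : e - Finsupp.single i 1 + Finsupp.single i 1 = e := by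
        rw [tsub_add_cancel_of_le]
        rw [Finsupp.single_le_iff]
        exact Nat.one_le_iff_ne_zero.2 (Finsupp.mem_support_iff.1 hi)
      have h3 : Finsupp.weight d (e - Finsupp.single i 1) + d i = n := by
        conv_rhs => rw [← hw e he, ← h2, map_add]
        rw [Finsupp.weight_single, one_smul]
      omega
    have h2 : d i ≤ n := by
      rw [← hw e he]
      exact Finsupp.le_weight_of_ne_zero' d (Finsupp.mem_support_iff.1 hi)
    have h3 := h1.mul (hξ i)
    have h4 : n - d i + (d i - 1) = n - 1 := by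
      have := hd i
      omega
    rw [h4] at h3
    exact h3
  · intro hn
    rw [hs]
    refine Finset.sum_eq_zero fun e he => ?_
    have h0 : e = 0 := by
      ext i
      by_contra h
      have h1 := Finsupp.le_weight_of_ne_zero' d h
      rw [hw e he, hn] at h1
      have := hd i
      omega
    rw [hm e he, h0]
    simp

theorem lie_iter {d : Fin c → ℕ} {ξ : Fin c → Pl c} (hd : ∀ i, 1 ≤ d i) (hξ : VF d ξ)
    {P : Pl c} {n : ℕ} (hP : P.IsWeightedHomogeneous d n) (r : ℕ) :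
    ((lie ξ)^[r] P).IsWeightedHomogeneous d (n - r) := by
  induction r with
  | zero => exact hP
  | succ r ih =>
    rw [Function.iterate_succ_apply']
    have := (lie_wh hd hξ ih).1
    rwa [Nat.sub_sub] at this

theorem lie_iter_zero' (ξ : Fin c → Pl c) (r : ℕ) : (lie ξ)^[r] (0 : Pl c) = 0 := by
  induction r with
  | zero => rfl
  | succ r ih => rw [Function.iterate_succ_apply', ih, map_zero]

theorem lie_iter_add (ξ : Fin c → Pl c) (P Q : Pl c) (r : ℕ) :
    (lie ξ)^[r] (P + Q) = (lie ξ)^[r] P + (lie ξ)^[r] Q := by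
  induction r with
  | zero => rfl
  | succ r ih =>
    rw [Function.iterate_succ_apply', Function.iterate_succ_apply', Function.iterate_succ_apply',
      ih, map_add]

theorem lie_iter_zero {d : Fin c → ℕ} {ξ : Fin c → Pl c} (hd : ∀ i, 1 ≤ d i) (hξ : VF d ξ)
    {P : Pl c} {n : ℕ} (hP : P.IsWeightedHomogeneous d n) {r : ℕ} (hr : n < r) :
    (lie ξ)^[r] P = 0 := by
  obtain ⟨k, rfl⟩ : ∃ k, r = k + (n + 1) := ⟨r - (n + 1), by omega⟩
  rw [Function.iterate_add_apply, Function.iterate_succ_apply',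
    (lie_wh hd hξ (lie_iter hd hξ hP n)).2 (by omega), lie_iter_zero']

theorem lie_iter_mul (ξ : Fin c → Pl c) (P Q : Pl c) (n : ℕ) :
    (lie ξ)^[n] (P * Q) = ∑ ij ∈ antidiagonal n,
      n.choose ij.1 • ((lie ξ)^[ij.1] P * (lie ξ)^[ij.2] Q) := by
  induction n with
  | zero => simp
  | succ n ih =>
    rw [Function.iterate_succ_apply', ih, map_sum,
      sum_antidiagonal_choose_succ_nsmul (fun i j => (lie ξ)^[i] P * (lie ξ)^[j] Q) n,
      ← Finset.sum_add_distrib]
    refine Finset.sum_congr rfl fun ij hij => ?_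
    have h1 : n.choose ij.2 = n.choose ij.1 := by
      rw [HasAntidiagonal.mem_antidiagonal] at hij
      exact Nat.choose_symm_of_eq_add (by omega)
    rw [h1, map_nsmul, Derivation.leibniz, ← nsmul_add, Function.iterate_succ_apply',
      Function.iterate_succ_apply', smul_eq_mul, smul_eq_mul]
    congr 1
    ring

theorem lie_iter_C (ξ : Fin c → Pl c) (a : ℝ) (r : ℕ) : (lie ξ)^[r + 1] (C a : Pl c) = 0 := by
  have h : lie ξ (C a : Pl c) = 0 := by
    rw [← algebraMap_eq]
    exact Derivation.map_algebraMap _ a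
  rw [Function.iterate_succ_apply, h, lie_iter_zero']

/-- `lie ξ` is locally nilpotent. -/
theorem lie_nil {d : Fin c → ℕ} {ξ : Fin c → Pl c} (hd : ∀ i, 1 ≤ d i) (hξ : VF d ξ)
    (P : Pl c) : ∃ R : ℕ, ∀ r, R ≤ r → (lie ξ)^[r] P = 0 := by
  induction P using MvPolynomial.induction_on with
  | C a =>
    refine ⟨1, fun r hr => ?_⟩
    obtain ⟨k, rfl⟩ : ∃ k, r = k + 1 := ⟨r - 1, by omega⟩
    exact lie_iter_C ξ a k
  | add P Q hP hQ =>
    obtain ⟨R₁, h₁⟩ := hP
    obtain ⟨R₂, h₂⟩ := hQ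
    refine ⟨max R₁ R₂, fun r hr => ?_⟩
    rw [lie_iter_add, h₁ r (le_trans (le_max_left _ _) hr), h₂ r (le_trans (le_max_right _ _) hr),
      add_zero]
  | mul_X P i hP =>
    obtain ⟨R₁, h₁⟩ := hP
    refine ⟨R₁ + (d i + 1), fun r hr => ?_⟩
    rw [lie_iter_mul]
    refine Finset.sum_eq_zero fun ij hij => ?_
    rw [HasAntidiagonal.mem_antidiagonal] at hij
    rcases le_or_gt R₁ ij.1 with h | h
    · rw [h₁ _ h, zero_mul, smul_zero]
    · rw [lie_iter_zero hd hξ (isWeightedHomogeneous_X ℝ d i) (show d i < ij.2 by omega),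
        mul_zero, smul_zero]

/-! ### The exponential -/

/-- The value of the exponential at `u`. -/
noncomputable def ev (ξ : Fin c → Pl c) (s : ℝ) (u : Fin c → ℝ) (P : Pl c) : ℝ :=
  ∑' r : ℕ, s ^ r / (r.factorial : ℝ) * eval u ((lie ξ)^[r] P)

theorem ev_eq {ξ : Fin c → Pl c} {s : ℝ} {u : Fin c → ℝ} {P : Pl c} {R : ℕ}
    (h : ∀ r, R ≤ r → (lie ξ)^[r] P = 0) :
    ev ξ s u P = ∑ r ∈ range R, s ^ r / (r.factorial : ℝ) * eval u ((lie ξ)^[r] P) := by
  refine tsum_eq_sum fun r hr => ?_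
  rw [mem_range, not_lt] at hr
  rw [h r hr, map_zero, mul_zero]

theorem ev_summable {ξ : Fin c → Pl c} (s : ℝ) (u : Fin c → ℝ) {P : Pl c}
    (h : ∃ R : ℕ, ∀ r, R ≤ r → (lie ξ)^[r] P = 0) :
    Summable fun r : ℕ => ‖s ^ r / (r.factorial : ℝ) * eval u ((lie ξ)^[r] P)‖ := by
  obtain ⟨R, h⟩ := h
  refine summable_of_ne_finset_zero (s := range R) fun r hr => ?_
  rw [mem_range, not_lt] at hr
  rw [h r hr, map_zero, mul_zero, norm_zero]

variable {d : Fin c → ℕ} {ξ : Fin c → Pl c} (hd : ∀ i, 1 ≤ d i) (hξ : VF d ξ)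
  (s : ℝ) (u : Fin c → ℝ)

include hd hξ in
theorem ev_add (P Q : Pl c) : ev ξ s u (P + Q) = ev ξ s u P + ev ξ s u Q := by
  unfold ev
  rw [← Summable.tsum_add (ev_summable s u (lie_nil hd hξ P)).of_norm
    (ev_summable s u (lie_nil hd hξ Q)).of_norm]
  refine tsum_congr fun r => ?_
  rw [lie_iter_add, map_add, mul_add]

include hd hξ in
theorem ev_mul (P Q : Pl c) : ev ξ s u (P * Q) = ev ξ s u P * ev ξ s u Q := by
  unfold ev
  rw [tsum_mul_tsum_eq_tsum_sum_antidiagonal_of_summable_norm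
    (ev_summable s u (lie_nil hd hξ P)) (ev_summable s u (lie_nil hd hξ Q))]
  refine tsum_congr fun n => ?_
  rw [lie_iter_mul, map_sum, Finset.mul_sum]
  refine Finset.sum_congr rfl fun ij hij => ?_
  rw [HasAntidiagonal.mem_antidiagonal] at hij
  have h1 : (n.choose ij.1 : ℝ) * ((ij.1.factorial : ℝ) * (ij.2.factorial : ℝ)) =
      (n.factorial : ℝ) := by
    have h : n.choose ij.1 * ij.1.factorial * (n - ij.1).factorial = n.factorial :=
      Nat.choose_mul_factorial_mul_factorial (by omega)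
    rw [show n - ij.1 = ij.2 by omega] at h
    rw [← h]
    push_cast
    ring
  have h2 : (ij.1.factorial : ℝ) ≠ 0 := by exact_mod_cast ij.1.factorial_ne_zero
  have h3 : (ij.2.factorial : ℝ) ≠ 0 := by exact_mod_cast ij.2.factorial_ne_zero
  have h4 : (n.factorial : ℝ) ≠ 0 := by exact_mod_cast n.factorial_ne_zero
  have h5 : (n.choose ij.1 : ℝ) = (n.factorial : ℝ) /
      ((ij.1.factorial : ℝ) * (ij.2.factorial : ℝ)) := by
    rw [eq_div_iff (mul_ne_zero h2 h3)]
    exact h1
  have h6 : s ^ n = s ^ ij.1 * s ^ ij.2 := by rw [← pow_add, hij]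
  rw [map_nsmul, map_mul, nsmul_eq_mul, h5, h6]
  field_simp

theorem ev_C (a : ℝ) : ev ξ s u (C a) = a := by
  rw [ev_eq (R := 1)]
  · simp
  · intro r hr
    obtain ⟨k, rfl⟩ : ∃ k, r = k + 1 := ⟨r - 1, by omega⟩
    exact lie_iter_C ξ a k

/-- The exponential as a ring homomorphism. -/
noncomputable def evH (hd : ∀ i, 1 ≤ d i) (hξ : VF d ξ) (s : ℝ) (u : Fin c → ℝ) :
    Pl c →+* ℝ where
  toFun := ev ξ s u
  map_one' := by
    have := ev_C (ξ := ξ) s u 1
    rwa [map_one] at this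
  map_mul' := ev_mul hd hξ s u
  map_zero' := by
    have := ev_C (ξ := ξ) s u 0
    rwa [map_zero] at this
  map_add' := ev_add hd hξ s u

include hd hξ in
theorem ev_X (i : Fin c) : ev ξ s u (X i) = eval u (flow d ξ s i) := by
  rw [ev_eq (R := d i + 1) fun r hr => lie_iter_zero hd hξ (isWeightedHomogeneous_X ℝ d i)
    (by omega), flow, map_sum]
  refine Finset.sum_congr rfl fun r _ => ?_
  rw [map_mul, eval_C]

include hd hξ in
/-- **The evaluation at the end point of the flow is the exponential.** -/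
theorem eval_flow (P : Pl c) : eval (fun k => eval u (flow d ξ s k)) P = ev ξ s u P := by
  have h : (eval (fun k => eval u (flow d ξ s k)) : Pl c →+* ℝ) = evH hd hξ s u := by
    refine MvPolynomial.ringHom_ext (fun a => ?_) fun i => ?_
    · rw [eval_C]
      exact (ev_C s u a).symm
    · rw [eval_X]
      exact (ev_X hd hξ s u i).symm
  exact DFunLike.congr_fun h P

/-- The sum over the antidiagonals and over the square. -/
theorem sq_sum (f : ℕ → ℕ → ℝ) (R : ℕ) (hf : ∀ i j, R ≤ i + j → f i j = 0) :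
    ∑ n ∈ range R, ∑ ij ∈ antidiagonal n, f ij.1 ij.2 = ∑ r ∈ range R, ∑ q ∈ range R, f q r := by
  have h1 : ∀ n, ∑ ij ∈ antidiagonal n, f ij.1 ij.2 = ∑ k ∈ range (n + 1), f k (n - k) :=
    fun n => Finset.Nat.sum_antidiagonal_eq_sum_range_succ f n
  rw [Finset.sum_congr rfl fun n _ => h1 n, Finset.sum_range_diag_flip]
  symm
  rw [Finset.sum_comm]
  refine Finset.sum_congr rfl fun q hq => ?_
  symm
  refine Finset.sum_subset (range_mono (Nat.sub_le _ _)) fun k _ hk => hf q k ?_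
  rw [mem_range] at hq
  rw [mem_range, not_lt] at hk
  omega

theorem pow_fac (s t : ℝ) (n : ℕ) : (s + t) ^ n / (n.factorial : ℝ) = ∑ ij ∈ antidiagonal n,
    s ^ ij.1 / (ij.1.factorial : ℝ) * (t ^ ij.2 / (ij.2.factorial : ℝ)) := by
  rw [(Commute.all s t).add_pow', Finset.sum_div]
  refine Finset.sum_congr rfl fun ij hij => ?_
  rw [HasAntidiagonal.mem_antidiagonal] at hij
  have h1 : (n.choose ij.1 : ℝ) * ((ij.1.factorial : ℝ) * (ij.2.factorial : ℝ)) =
      (n.factorial : ℝ) := by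
    have h : n.choose ij.1 * ij.1.factorial * (n - ij.1).factorial = n.factorial :=
      Nat.choose_mul_factorial_mul_factorial (by omega)
    rw [show n - ij.1 = ij.2 by omega] at h
    rw [← h]
    push_cast
    ring
  have h2 : (ij.1.factorial : ℝ) ≠ 0 := by exact_mod_cast ij.1.factorial_ne_zero
  have h3 : (ij.2.factorial : ℝ) ≠ 0 := by exact_mod_cast ij.2.factorial_ne_zero
  have h4 : (n.factorial : ℝ) ≠ 0 := by exact_mod_cast n.factorial_ne_zero
  have h5 : (n.choose ij.1 : ℝ) = (n.factorial : ℝ) /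
      ((ij.1.factorial : ℝ) * (ij.2.factorial : ℝ)) := by
    rw [eq_div_iff (mul_ne_zero h2 h3)]
    exact h1
  rw [nsmul_eq_mul, h5]
  field_simp

theorem ev_iter (t : ℝ) (P : Pl c) {R : ℕ} (hR : ∀ r, R ≤ r → (lie ξ)^[r] P = 0) (r : ℕ) :
    ev ξ t u ((lie ξ)^[r] P) =
      ∑ q ∈ range R, t ^ q / (q.factorial : ℝ) * eval u ((lie ξ)^[q + r] P) := by
  rw [ev_eq (R := R)]
  · refine Finset.sum_congr rfl fun q _ => ?_
    rw [Function.iterate_add_apply]
  · intro q hq
    rw [← Function.iterate_add_apply]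
    exact hR _ (by omega)

/-- The group law. -/
theorem ev_ev (t : ℝ) (P : Pl c) {R : ℕ} (hR : ∀ r, R ≤ r → (lie ξ)^[r] P = 0) :
    ∑ r ∈ range R, t ^ r / (r.factorial : ℝ) * ev ξ s u ((lie ξ)^[r] P) = ev ξ (s + t) u P := by
  have h2 : ev ξ (s + t) u P = ∑ n ∈ range R, ∑ ij ∈ antidiagonal n,
      s ^ ij.1 / (ij.1.factorial : ℝ) * (t ^ ij.2 / (ij.2.factorial : ℝ)) *
        eval u ((lie ξ)^[ij.1 + ij.2] P) := by
    rw [ev_eq hR]
    refine Finset.sum_congr rfl fun n _ => ?_
    rw [pow_fac, Finset.sum_mul]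
    refine Finset.sum_congr rfl fun ij hij => ?_
    rw [HasAntidiagonal.mem_antidiagonal] at hij
    rw [hij]
  rw [h2, sq_sum (fun i j => s ^ i / (i.factorial : ℝ) * (t ^ j / (j.factorial : ℝ)) *
    eval u ((lie ξ)^[i + j] P)) R fun i j hij => by rw [hR _ hij, map_zero, mul_zero]]
  refine Finset.sum_congr rfl fun r _ => ?_
  rw [ev_iter u s P hR, Finset.mul_sum]
  refine Finset.sum_congr rfl fun q _ => ?_
  ring

/-- The group law for the primitive. -/
theorem ev_prim (t : ℝ) (P : Pl c) {R : ℕ} (hR : ∀ r, R ≤ r → (lie ξ)^[r] P = 0) :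
    ∑ n ∈ range R, (s + t) ^ (n + 1) / ((n + 1).factorial : ℝ) * eval u ((lie ξ)^[n] P) =
      ∑ n ∈ range R, s ^ (n + 1) / ((n + 1).factorial : ℝ) * eval u ((lie ξ)^[n] P) +
      ∑ r ∈ range R, t ^ (r + 1) / ((r + 1).factorial : ℝ) * ev ξ s u ((lie ξ)^[r] P) := by
  have h2 : ∑ r ∈ range R, t ^ (r + 1) / ((r + 1).factorial : ℝ) * ev ξ s u ((lie ξ)^[r] P) =
      ∑ n ∈ range R, ∑ ij ∈ antidiagonal n, s ^ ij.1 / (ij.1.factorial : ℝ) *
        (t ^ (ij.2 + 1) / ((ij.2 + 1).factorial : ℝ)) * eval u ((lie ξ)^[ij.1 + ij.2] P) := by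
    rw [sq_sum (fun i j => s ^ i / (i.factorial : ℝ) * (t ^ (j + 1) / ((j + 1).factorial : ℝ)) *
      eval u ((lie ξ)^[i + j] P)) R fun i j hij => by rw [hR _ hij, map_zero, mul_zero]]
    refine Finset.sum_congr rfl fun r _ => ?_
    rw [ev_iter u s P hR, Finset.mul_sum]
    refine Finset.sum_congr rfl fun q _ => ?_
    ring
  rw [h2, ← Finset.sum_add_distrib]
  refine Finset.sum_congr rfl fun n _ => ?_
  rw [pow_fac, Finset.Nat.sum_antidiagonal_succ', add_mul, Finset.sum_mul]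
  congr 1
  · simp
  · refine Finset.sum_congr rfl fun ij hij => ?_
    rw [HasAntidiagonal.mem_antidiagonal] at hij
    rw [hij]

end F3

open F3

/-- **Row FLW3.** -/
theorem flw3_thm : Flw3Stmt := by
  intro c j d ξ b s t u hd hj hξ hb
  have hX : ∀ i : Fin c, ∀ r, d i + 1 ≤ r → (lie ξ)^[r] (X i : Pl c) = 0 := fun i r hr =>
    lie_iter_zero hd hξ (isWeightedHomogeneous_X ℝ d i) (by omega)
  have hB : ∀ r, j ≤ r → (lie ξ)^[r] b = 0 := fun r hr =>
    lie_iter_zero hd hξ hb (by omega)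
  constructor
  · intro i
    rw [eval_flow hd hξ, ← ev_X hd hξ (s + t) u i, ← ev_ev s u t (X i) (hX i)]
    have h1 : ev ξ s u (flow d ξ t i) = evH hd hξ s u (flow d ξ t i) := rfl
    rw [h1, flow, map_sum]
    refine Finset.sum_congr rfl fun r _ => ?_
    rw [map_mul]
    congr 1
    exact ev_C s u _
  · have h1 : ∀ x : ℝ, eval u (hfl j ξ b x) = ∑ n ∈ range j,
        x ^ (n + 1) / ((n + 1).factorial : ℝ) * eval u ((lie ξ)^[n] b) := fun x => by
      rw [hfl, map_sum]
      refine Finset.sum_congr rfl fun r _ => ?_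
      rw [map_mul, eval_C]
    have h2 : eval (fun k => eval u (flow d ξ s k)) (hfl j ξ b t) = ∑ r ∈ range j,
        t ^ (r + 1) / ((r + 1).factorial : ℝ) * ev ξ s u ((lie ξ)^[r] b) := by
      rw [hfl, map_sum]
      refine Finset.sum_congr rfl fun r _ => ?_
      rw [map_mul, eval_C, eval_flow hd hξ]
    rw [h1, h1, h2]
    exact ev_prim s u t b hB

end Pool.STAT
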